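import Pool.Agent.Lib_helper46.Chrom.NSDefs

/-!
# Lemma P (section 5.4 of note 1214)

A tight face disjoint from the big component of a big tight face `D` is `D` itself.
-/

open Finset

namespace Pool.Agent.Chrom

variable {V : Type} [Fintype V] [DecidableEq V]

set_option linter.unusedSectionVars false

/-- in a preconnected graph a nonempty set closed under adjacency is everything -/
private lemma lemmaP_closed {G : SimpleGraph V} (hG : G.Preconnected) {X : Finset V}
    (hX : ∀ u ∈ X, ∀ v, G.Adj u v → v ∈ X) {x : V} (hx : x ∈ X) (y : V) : y ∈ X := by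
  obtain ⟨p⟩ := hG x y
  induction p with
  | nil => exact hx
  | @cons b c d hbc q ih => exact ih (hX b hx c hbc)

/-- a tight face has a minimal tight subface -/
private lemma lemmaP_exists_min {A : Finset V → Prop} {T : Finset V} (hT : Tight A T) :
    ∃ E, E ⊆ T ∧ Tight A E ∧ ∀ X, X ⊂ E → ¬ Tight A X := by
  induction T using Finset.strongInduction with
  | H T ih =>
    by_cases h1 : ∀ X, X ⊂ T → ¬ Tight A X
    · exact ⟨T, Subset.refl _, hT, h1⟩
    · push Not at h1
      obtain ⟨X, hX, hAX⟩ := h1
      obtain ⟨E, hE, hE'⟩ := ih X hX hAX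
      exact ⟨E, hE.trans hX.subset, hE'⟩

/-- **Lemma P** -/
theorem lemmaP (hStr : StmtStr) : StmtLemmaP := by
  intro V _ _ A a D T h hcr hco hD hT hdis
  obtain ⟨E, hET, hE, hmin⟩ := lemmaP_exists_min hT
  have haC : a ∈ comp (gr A) D a := self_mem_comp a
  have hdE : Disjoint E (comp (gr A) D a) := hdis.mono_left hET
  have haE : a ∉ E := fun ha => Finset.disjoint_left.1 hdE ha haC
  have hsub : comp (gr A) D a ⊆ comp (gr A) E a :=
    conn_subset_comp (comps_conn (comp_mem_comps hD.na)) hdE.symm haC
  have heq : comp (gr A) D a = comp (gr A) E a :=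
    Finset.eq_of_subset_of_card_le hsub (hD.max E hE haE)
  have hbig : Big A a E := by
    refine ⟨hE, haE, hmin, fun S hS ha => ?_⟩
    rw [← heq]
    exact hD.max S hS ha
  obtain ⟨f, hf, hcf⟩ := (hcr D hD.tight).cross h hD.tight
  obtain ⟨g, hg, hcg⟩ := (hcr E hE).cross h hE
  have sD := hStr V A a D f h hcr hco hD hf hcf
  have sE := hStr V A a E g h hcr hco hbig hg hcg
  -- `E ⊆ D`
  have hED : E ⊆ D := by
    by_contra hno
    obtain ⟨z, hzE, hzD⟩ := Finset.not_subset.1 hno
    have hcl : ∀ u ∈ (D \ E) ∪ (E \ D), ∀ v, (gr A).Adj u v → v ∈ (D \ E) ∪ (E \ D) := by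
      intro u hu v huv
      rcases mem_union.1 hu with hu | hu
      · obtain ⟨huD, huE⟩ := mem_sdiff.1 hu
        have huC : u ∉ comp (gr A) E a := by
          rw [← heq]
          exact fun hc => Finset.disjoint_left.1 (comp_disjoint hD.na) hc huD
        have hvE := sE.zn u huE huC v huv
        have hvD : v ∉ D := fun hv => h.not_adj hD.tight.face huD hv huv
        exact mem_union_right _ (mem_sdiff.2 ⟨hvE, hvD⟩)
      · obtain ⟨huE, huD⟩ := mem_sdiff.1 hu
        have huC : u ∉ comp (gr A) D a := fun hc => Finset.disjoint_left.1 hdE huE hc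
        have hvD := sD.zn u huD huC v huv
        have hvE : v ∉ E := fun hv => h.not_adj hE.face huE hv huv
        exact mem_union_left _ (mem_sdiff.2 ⟨hvD, hvE⟩)
    have := lemmaP_closed h.conn hcl (mem_union_right _ (mem_sdiff.2 ⟨hzE, hzD⟩)) a
    rcases mem_union.1 this with h1 | h1
    · exact hD.na (mem_sdiff.1 h1).1
    · exact haE (mem_sdiff.1 h1).1
  have hEeq : E = D := by
    by_contra hne
    exact hD.min E (Finset.ssubset_iff_subset_ne.2 ⟨hED, hne⟩) hE
  rw [hEeq] at hET
  -- `T ⊆ D`
  refine Subset.antisymm ?_ hET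
  intro z hz
  by_contra hzD
  have hzC : z ∉ comp (gr A) D a := fun hc => Finset.disjoint_left.1 hdis hz hc
  have hcl : ∀ u ∈ ({z} : Finset V), ∀ v, (gr A).Adj u v → v ∈ ({z} : Finset V) := by
    intro u hu v huv
    rw [mem_singleton] at hu
    subst hu
    exact absurd huv (h.not_adj hT.face hz (hET (sD.zn u hzD hzC v huv)))
  have := lemmaP_closed h.conn hcl (mem_singleton_self z) a
  rw [mem_singleton] at this
  subst this
  exact hzC haC

end Pool.Agent.Chrom
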