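import Pool.Agent.Lib_helper28.Chrom.Stmt

/-!
# Base cases (section 3 of note 1214): at most three vertices

All pairs are edges, the good colourings are the injective maps and the polynomial is a falling
factorial.
-/

open Finset Polynomial

namespace Pool.Agent.Chrom

set_option linter.unusedSectionVars false

variable {V : Type} [Fintype V] [DecidableEq V]

/-- with at most three vertices all pairs are edges -/
lemma base_adj {A : Finset V → Prop} (h : NC A) (h3 : Fintype.card V ≤ 3) {u v : V}
    (huv : u ≠ v) : (gr A).Adj u v := by
  classical
  by_contra hno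
  have hcard : (univ \ ({u, v} : Finset V)).card ≤ 1 := by
    rw [card_sdiff_of_subset (subset_univ _), card_pair huv, card_univ]
    omega
  have hu : u ∉ univ \ ({u, v} : Finset V) := by simp
  have hv : v ∉ univ \ ({u, v} : Finset V) := by simp
  have hr : (del (gr A) (univ \ ({u, v} : Finset V))).Reachable u v := by
    rcases Nat.lt_or_ge 0 (univ \ ({u, v} : Finset V)).card with h1 | h1
    · obtain ⟨w, hw⟩ := card_eq_one.1 (show (univ \ ({u, v} : Finset V)).card = 1 by omega)
      have h2 := h.face {w} (h.sing w) (singleton_nonempty w)
      unfold cc at h2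
      rw [card_singleton] at h2
      have h4 : (comps (gr A) {w}).card ≤ 1 := by
        have : kk (gr A) {w} ≤ 1 := by omega
        exact this
      rw [hw] at hu hv ⊢
      have h5 := card_le_one.1 h4 _ (comp_mem_comps hu) _ (comp_mem_comps hv)
      have h6 : v ∈ comp (gr A) {w} u := by rw [h5]; exact self_mem_comp v
      exact mem_comp.1 h6
    · have h2 : (univ \ ({u, v} : Finset V)) = ∅ := card_eq_zero.1 (by omega)
      rw [h2]
      refine (h.conn u v).mono ?_
      intro a b hab
      exact ⟨hab, by simp, by simp⟩
  have hcl : Closed (gr A) (univ \ ({u, v} : Finset V)) {u} := by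
    intro a ha b hab hb
    rw [mem_singleton] at ha
    subst ha
    simp only [mem_sdiff, mem_univ, true_and, not_not, mem_insert, mem_singleton] at hb
    rcases hb with rfl | rfl
    · exact mem_singleton_self _
    · exact absurd hab hno
  have := (reachable_closed hcl (mem_singleton_self u) hr).1
  rw [mem_singleton] at this
  exact huv this.symm

/-- the good colourings are the injective maps -/
lemma base_good {A : Finset V → Prop} (h : NC A) (h3 : Fintype.card V ≤ 3) {N : ℕ}
    (f : V → Fin N) : Good A f ↔ Function.Injective f := by
  constructor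
  · intro hf u v huv
    by_contra hne
    refine (base_adj h h3 hne).2 (h.down _ _ ?_ (hf u))
    intro w hw
    rw [mem_insert, mem_singleton] at hw
    rw [mem_cls]
    rcases hw with rfl | rfl
    · rfl
    · exact huv.symm
  · intro hf v
    have : cls f v = {v} := by
      ext w
      rw [mem_cls, mem_singleton, hf.eq_iff]
    rw [this]
    exact h.sing v

lemma base_cnt {A : Finset V → Prop} (h : NC A) (h3 : Fintype.card V ≤ 3) (N : ℕ) :
    cnt A N = N.descFactorial (Fintype.card V) := by
  classical
  unfold cnt
  rw [Nat.card_congr ((Equiv.subtypeEquivRight fun f => base_good h h3 f).trans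
    (Equiv.subtypeInjectiveEquivEmbedding V (Fin N))), Nat.card_eq_fintype_card,
    Fintype.card_embedding_eq, Fintype.card_fin]

lemma base_poly {A : Finset V → Prop} (h : NC A) (h3 : Fintype.card V ≤ 3) :
    poly A = descPochhammer ℝ (Fintype.card V) :=
  eq_of_eval_nat fun N => by
    rw [poly_eval_nat, base_cnt h h3, descPochhammer_eval_eq_descFactorial]

/-- **the base cases** -/
theorem stmtBase : StmtBase := by
  intro V _ _ A x h h3 h1 h2
  have h2' := h.two
  unfold FF
  rw [base_poly h h3]
  have hc : Fintype.card V = 2 ∨ Fintype.card V = 3 := by omega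
  have e2 : (descPochhammer ℝ 2).eval x = x * (x - 1) := by
    simp [descPochhammer_succ_right]
  have e3 : (descPochhammer ℝ 3).eval x = x * (x - 1) * (x - 2) := by
    simp [descPochhammer_succ_right]
  rcases hc with hc | hc
  · rw [hc, e2]
    nlinarith
  · rw [hc, e3]
    have a1 : 0 < x * (x - 1) := by nlinarith
    nlinarith

end Pool.Agent.Chrom
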